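import Mathlib
import Pool.Agent.TH764.OG.Cnf3

/-!
# Reduction of `α → (α, infinite path)²` to the terms of the Cantor normal form
-/

set_option autoImplicit false

namespace Pool.Agent.Results.MP_820435_lc.CantorTerms

open Cardinal Ordinal

/-- The relation `α → (α, infinite path)²`: for every partition of the pairs of a well-order of type
`α` into two classes, with the second class written as the edge set of a graph `G`, there is a set
of type `α` without pairs in the second class, or an injective sequence whose consecutive terms form
pairs in the second class. -/
def Rel (α : Ordinal.{0}) : Prop :=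
  ∀ G : SimpleGraph α.ToType,
    (∃ Y : Set α.ToType, G.IsIndepSet Y ∧ typeLT Y = α) ∨
    ∃ f : ℕ → α.ToType, Function.Injective f ∧ ∀ n, G.Adj (f n) (f (n + 1))

/-- A limit ordinal satisfies the relation if and only if every term of its Cantor normal form
does. -/
theorem result (α : Ordinal.{0}) (hα : Order.IsSuccLimit α) :
    Rel α ↔ ∀ γ ∈ (CNF ω α).map Prod.fst, Rel (ω ^ γ) :=
  TH764.OG.rel_iff_terms hα

end Pool.Agent.Results.MP_820435_lc.CantorTerms
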