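import Mathlib
import Pool.Agent.TH764.OG.Fam2

/-!
# The relation `α → (α, infinite path)²` in ZFC: terms below `κ ^ (μ + 2)`, where `μ < κ`
-/

set_option autoImplicit false

namespace Pool.Agent.Results.MP_820435_lc.CardinalIntervals

open Cardinal Ordinal

/-- The relation `α → (α, infinite path)²`: for every partition of the pairs of a well-order of type
`α` into two classes, with the second class written as the edge set of a graph `G`, there is a set
of type `α` without pairs in the second class, or an injective sequence whose consecutive terms form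
pairs in the second class. -/
def Rel (α : Ordinal.{0}) : Prop :=
  ∀ G : SimpleGraph α.ToType,
    (∃ Y : Set α.ToType, G.IsIndepSet Y ∧ typeLT Y = α) ∨
    ∃ f : ℕ → α.ToType, Function.Injective f ∧ ∀ n, G.Adj (f n) (f (n + 1))

/-- Let `α` be a limit ordinal such that every uncountable term `ω ^ γ` of its Cantor normal form,
of cardinality `κ` say, is less than `κ ^ (μ + 2)` (ordinal arithmetic) for some infinite cardinal
`μ < κ`. Then `α → (α, infinite path)²`. -/
theorem result (α : Ordinal.{0}) (hα : Order.IsSuccLimit α)
    (h : ∀ γ ∈ (CNF ω α).map Prod.fst, ∀ κ : Cardinal.{0}, (ω ^ γ).card = κ → ℵ₀ < κ →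
      ∃ μ : Cardinal.{0}, ℵ₀ ≤ μ ∧ μ < κ ∧ ω ^ γ < κ.ord ^ (μ.ord + 2)) : Rel α :=
  TH764.OG.main_zfc hα (fun γ hγ hc => h γ hγ _ rfl hc)

end Pool.Agent.Results.MP_820435_lc.CardinalIntervals
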