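import Mathlib
import Pool.Agent.TH764.OG.Exact

/-!
# All limit ordinals below `ω₂ ^ ω₂`, under `2 ^ ℵ₀ = ℵ₁` and `2 ^ ℵ₁ = ℵ₂`
-/

set_option autoImplicit false

namespace Pool.Agent.Results.MP_820435_lc.GchBelow

open Cardinal Ordinal

/-- The relation `α → (α, infinite path)²`: for every partition of the pairs of a well-order of type
`α` into two classes, with the second class written as the edge set of a graph `G`, there is a set
of type `α` without pairs in the second class, or an injective sequence whose consecutive terms form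
pairs in the second class. -/
def Rel (α : Ordinal.{0}) : Prop :=
  ∀ G : SimpleGraph α.ToType,
    (∃ Y : Set α.ToType, G.IsIndepSet Y ∧ typeLT Y = α) ∨
    ∃ f : ℕ → α.ToType, Function.Injective f ∧ ∀ n, G.Adj (f n) (f (n + 1))

/-- Assume `2 ^ ℵ₀ = ℵ₁` and `2 ^ ℵ₁ = ℵ₂`. A limit ordinal `α < ω₂ ^ ω₂` satisfies
`α → (α, infinite path)²` if and only if every term `ω ^ γ` of its Cantor normal form is less than
`ω₁ ^ (ω + 2)` or lies in the interval `[ω₂, ω₂ ^ (ω₁ + 2))`. -/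
theorem result (hCH : (2 : Cardinal.{0}) ^ (ℵ₀ : Cardinal.{0}) = ℵ₁)
    (h2 : (2 : Cardinal.{0}) ^ (ℵ₁ : Cardinal.{0}) = ℵ_ 2) (α : Ordinal.{0})
    (hα : Order.IsSuccLimit α) (hlt : α < ω_ 2 ^ ω_ 2) :
    Rel α ↔ ∀ γ ∈ (CNF ω α).map Prod.fst,
      ω ^ γ < ω_ 1 ^ (ω + 2) ∨ (ω_ 2 ≤ ω ^ γ ∧ ω ^ γ < ω_ 2 ^ (ω_ 1 + 2)) :=
  TH764.OG.exact_below hCH h2 hα hlt

end Pool.Agent.Results.MP_820435_lc.GchBelow
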