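import Mathlib
import Pool.Agent.TH764.OG.Fam2

/-!
# A characterization of `α → (α, infinite path)²` without graphs
-/

set_option autoImplicit false

namespace Pool.Agent.Results.MP_820435_lc.SmallSets

open Cardinal Ordinal

/-- The relation `α → (α, infinite path)²`: for every partition of the pairs of a well-order of type
`α` into two classes, with the second class written as the edge set of a graph `G`, there is a set
of type `α` without pairs in the second class, or an injective sequence whose consecutive terms form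
pairs in the second class. -/
def Rel (α : Ordinal.{0}) : Prop :=
  ∀ G : SimpleGraph α.ToType,
    (∃ Y : Set α.ToType, G.IsIndepSet Y ∧ typeLT Y = α) ∨
    ∃ f : ℕ → α.ToType, Function.Injective f ∧ ∀ n, G.Adj (f n) (f (n + 1))

/-- There are `κ` many subsets of `α` of order type less than `α` such that each point of `α`
belongs to all but finitely many of them. -/
def SmallCover (κ : Cardinal.{0}) (α : Ordinal.{0}) : Prop :=
  ∃ S : κ.ord.ToType → Set α.ToType, (∀ ξ, typeLT (S ξ) < α) ∧ ∀ x, {ξ | x ∉ S ξ}.Finite

/-- Let `α` be a limit ordinal. Assume that the cardinality of each uncountable term `ω ^ γ` of its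
Cantor normal form is a successor `μ⁺` with `2 ^ μ = μ⁺`. Then `α → (α, infinite path)²` holds if
and only if no uncountable term `ω ^ γ`, of cardinality `κ`, has `κ` many subsets of smaller order
type such that each point of `ω ^ γ` belongs to all but finitely many of them. -/
theorem result (α : Ordinal.{0}) (hα : Order.IsSuccLimit α)
    (hμ : ∀ γ ∈ (CNF ω α).map Prod.fst, ℵ₀ < (ω ^ γ).card →
      ∃ μ : Cardinal.{0}, ℵ₀ ≤ μ ∧ (ω ^ γ).card = Order.succ μ ∧
        (2 : Cardinal.{0}) ^ μ = Order.succ μ) :
    Rel α ↔ ∀ γ ∈ (CNF ω α).map Prod.fst, ℵ₀ < (ω ^ γ).card →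
      ¬ SmallCover (ω ^ γ).card (ω ^ γ) := by
  constructor
  · intro hR γ hγ hc hS
    obtain ⟨μ, h1, h2, h3⟩ := hμ γ hγ hc
    have hRγ := (TH764.OG.rel_iff_terms hα).1 hR γ hγ
    have h4 : Order.succ μ ≤ (ω ^ γ).card := h2.ge
    have h5 : (Order.succ μ).ord ≤ ω ^ γ := by
      rw [← h2]
      exact Cardinal.ord_card_le _
    refine TH764.OG.not_rel_of_smallCover h1 h3
      (TH764.OG.dvd_of_le_opow (h1.trans (Order.le_succ μ)) h5) h2.le ?_ hRγ
    rw [← h2]
    exact hS
  · intro h
    refine (TH764.OG.rel_iff_terms hα).2 (fun γ hγ => ?_)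
    rcases le_or_gt (ω ^ γ).card ℵ₀ with h1 | h1
    · exact TH764.OG.rel_opow_countable (TH764.OG.one_le_of_mem hα hγ) h1
    · by_contra hR
      exact h γ hγ h1 (TH764.OG.smallCover_of_not_rel h1.le
        (Ordinal.opow_pos γ Ordinal.omega0_pos).ne'
        (TH764.OG.dvd_of_le_opow h1.le (Cardinal.ord_card_le _)) le_rfl hR)

end Pool.Agent.Results.MP_820435_lc.SmallSets
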